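import Mathlib
import Pool.Agent.Helper79.HC.Defs

/-!
HC-1: cones over quadratic Bezier curves.
-/

namespace Pool.Agent.Helper79.HC

open MeasureTheory Set

namespace Cone

theorem bez_re (a m b : ℂ) (t : ℝ) : (bez a m b t).re =
    (1 - t) ^ 2 * a.re + 2 * t * (1 - t) * m.re + t ^ 2 * b.re := by
  simp only [bez, Complex.add_re, Complex.smul_re, smul_eq_mul]

theorem bez_im (a m b : ℂ) (t : ℝ) : (bez a m b t).im =
    (1 - t) ^ 2 * a.im + 2 * t * (1 - t) * m.im + t ^ 2 * b.im := by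
  simp only [bez, Complex.add_im, Complex.smul_im, smul_eq_mul]

theorem dbez_re (a m b : ℂ) (t : ℝ) : (dbez a m b t).re =
    2 * (1 - t) * (m.re - a.re) + 2 * t * (b.re - m.re) := by
  simp only [dbez, Complex.add_re, Complex.smul_re, smul_eq_mul, Complex.sub_re]

theorem dbez_im (a m b : ℂ) (t : ℝ) : (dbez a m b t).im =
    2 * (1 - t) * (m.im - a.im) + 2 * t * (b.im - m.im) := by
  simp only [dbez, Complex.add_im, Complex.smul_im, smul_eq_mul, Complex.sub_im]

theorem cr_bez (o a m b : ℂ) (t u : ℝ) :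
    cr (bez a m b t - o) (bez a m b u - o) =
      (u - t) * (2 * (1 - t) * (1 - u) * cr (a - o) (m - o) +
        ((1 - t) * u + t * (1 - u)) * cr (a - o) (b - o) +
        2 * t * u * cr (m - o) (b - o)) := by
  simp only [cr, Complex.sub_re, Complex.sub_im, bez_re, bez_im]
  ring

theorem cr_dbez (o a m b : ℂ) (t : ℝ) :
    cr (bez a m b t - o) (dbez a m b t) =
      2 * ((1 - t) ^ 2 * cr (a - o) (m - o) + t * (1 - t) * cr (a - o) (b - o) +
        t ^ 2 * cr (m - o) (b - o)) := by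
  simp only [cr, Complex.sub_re, Complex.sub_im, bez_re, bez_im, dbez_re, dbez_im]
  ring

theorem cr_dbez_pos {o a m b : ℂ} (h1 : 0 < cr (a - o) (m - o)) (h2 : 0 < cr (m - o) (b - o))
    (h3 : 0 < cr (a - o) (b - o)) {t : ℝ} (ht : t ∈ Ioo (0 : ℝ) 1) :
    0 < cr (bez a m b t - o) (dbez a m b t) := by
  rw [cr_dbez]
  have e1 : 0 < t := ht.1
  have e2 : 0 < 1 - t := by linarith [ht.2]
  positivity

theorem bez_ne {o a m b : ℂ} (h1 : 0 < cr (a - o) (m - o)) (h2 : 0 < cr (m - o) (b - o))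
    (h3 : 0 < cr (a - o) (b - o)) {t : ℝ} (ht : t ∈ Ioo (0 : ℝ) 1) :
    bez a m b t - o ≠ 0 := by
  intro h
  have := cr_dbez_pos h1 h2 h3 ht
  rw [h] at this
  simp [cr] at this

theorem cr_smul (s u : ℝ) (x y : ℂ) : cr (s • x) (u • y) = s * u * cr x y := by
  simp only [cr, Complex.smul_re, Complex.smul_im, smul_eq_mul]
  ring

theorem cr_self (x : ℂ) : cr x x = 0 := by
  simp only [cr]
  ring

theorem bez_inj {o a m b : ℂ} (h1 : 0 < cr (a - o) (m - o)) (h2 : 0 < cr (m - o) (b - o))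
    (h3 : 0 < cr (a - o) (b - o)) {s t s' t' : ℝ} (hs : s ∈ Ioo (0 : ℝ) 1)
    (ht : t ∈ Ioo (0 : ℝ) 1) (hs' : s' ∈ Ioo (0 : ℝ) 1) (ht' : t' ∈ Ioo (0 : ℝ) 1)
    (h : s • (bez a m b t - o) = s' • (bez a m b t' - o)) : s = s' ∧ t = t' := by
  have e0 : cr (s • (bez a m b t - o)) (s' • (bez a m b t' - o)) = 0 := by
    rw [h, cr_self]
  rw [cr_smul, cr_bez] at e0
  have p1 := hs.1
  have p2 := hs'.1
  have p3 := ht.1
  have p4 := ht'.1
  have p5 : 0 < 1 - t := by linarith [ht.2]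
  have p6 : 0 < 1 - t' := by linarith [ht'.2]
  have q : 0 < 2 * (1 - t) * (1 - t') * cr (a - o) (m - o) +
        ((1 - t) * t' + t * (1 - t')) * cr (a - o) (b - o) +
        2 * t * t' * cr (m - o) (b - o) := by positivity
  have e1 : t' - t = 0 := by
    rcases mul_eq_zero.1 e0 with h' | h'
    · rcases mul_eq_zero.1 h' with h' | h'
      · linarith
      · linarith
    · rcases mul_eq_zero.1 h' with h' | h'
      · exact h'
      · linarith
  have e2 : t = t' := by linarith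
  subst e2
  refine ⟨?_, rfl⟩
  have e3 : (s - s') • (bez a m b t - o) = 0 := by
    rw [sub_smul, h, sub_self]
  rcases smul_eq_zero.1 e3 with h' | h'
  · linarith
  · exact absurd h' (bez_ne h1 h2 h3 ht)

/-- the parametrisation of the cone -/
noncomputable def FF (o a m b : ℂ) (w : ℂ) : ℂ := o + (w.re : ℝ) • (bez a m b w.im - o)

/-- its derivative -/
noncomputable def FF' (o a m b : ℂ) (w : ℂ) : ℂ →L[ℝ] ℂ :=
  Complex.reCLM.smulRight (bez a m b w.im - o) +
    Complex.imCLM.smulRight ((w.re : ℝ) • dbez a m b w.im)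

/-- the unit square -/
def Sq : Set ℂ := {w | w.re ∈ Ioo (0 : ℝ) 1 ∧ w.im ∈ Ioo (0 : ℝ) 1}

theorem measurable_Sq : MeasurableSet Sq :=
  (measurableSet_Ioo.preimage Complex.measurable_re).inter
    (measurableSet_Ioo.preimage Complex.measurable_im)

theorem cone_eq (o a m b : ℂ) : cone o a m b = FF o a m b '' Sq := by
  ext z
  constructor
  · rintro ⟨s, hs, t, ht, rfl⟩
    exact ⟨⟨s, t⟩, ⟨hs, ht⟩, rfl⟩
  · rintro ⟨w, ⟨hs, ht⟩, rfl⟩
    exact ⟨w.re, hs, w.im, ht, rfl⟩

theorem hasDerivAt_bez (a m b : ℂ) (t : ℝ) : HasDerivAt (bez a m b) (dbez a m b t) t := by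
  have h1 : HasDerivAt (fun t : ℝ => (1 - t) ^ 2) (2 * (1 - t) * (-1)) t :=
    (((hasDerivAt_const t (1 : ℝ)).sub (hasDerivAt_id t)).pow 2).congr_deriv (by simp)
  have h2 : HasDerivAt (fun t : ℝ => 2 * t * (1 - t)) (2 * (1 - t) + 2 * t * (-1)) t :=
    (((hasDerivAt_id t).const_mul 2).mul
      ((hasDerivAt_const t (1 : ℝ)).sub (hasDerivAt_id t))).congr_deriv (by simp)
  have h3 : HasDerivAt (fun t : ℝ => t ^ 2) (2 * t) t :=
    ((hasDerivAt_id t).pow 2).congr_deriv (by simp)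
  refine (((h1.smul_const a).add (h2.smul_const m)).add (h3.smul_const b)).congr_deriv ?_
  simp only [dbez]
  module

theorem hasFDerivAt_FF (o a m b w : ℂ) : HasFDerivAt (FF o a m b) (FF' o a m b w) w := by
  have h1 : HasFDerivAt (fun w : ℂ => w.re) Complex.reCLM w := Complex.reCLM.hasFDerivAt
  have h2 : HasFDerivAt (fun w : ℂ => w.im) Complex.imCLM w := Complex.imCLM.hasFDerivAt
  have h3 : HasFDerivAt (fun w : ℂ => bez a m b w.im - o)
      (Complex.imCLM.smulRight (dbez a m b w.im)) w :=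
    (((hasDerivAt_bez a m b w.im).hasFDerivAt.comp w h2).sub_const o).congr_fderiv
      (by ext x; simp)
  exact ((h1.smul h3).const_add o).congr_fderiv (by ext x; simp [FF']; ring)

theorem FF_injOn {o a m b : ℂ} (h1 : 0 < cr (a - o) (m - o)) (h2 : 0 < cr (m - o) (b - o))
    (h3 : 0 < cr (a - o) (b - o)) : InjOn (FF o a m b) Sq := by
  intro w hw w' hw' h
  have := bez_inj h1 h2 h3 hw.1 hw.2 hw'.1 hw'.2 (add_left_cancel h)
  exact Complex.ext this.1 this.2

theorem det_FF' (o a m b w : ℂ) :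
    (FF' o a m b w).det = w.re * cr (bez a m b w.im - o) (dbez a m b w.im) := by
  rw [ContinuousLinearMap.det, ← LinearMap.det_toMatrix Complex.basisOneI,
    Matrix.det_fin_two]
  simp only [LinearMap.toMatrix_apply, Complex.coe_basisOneI, Complex.coe_basisOneI_repr,
    Matrix.cons_val_zero, Matrix.cons_val_one, FF', cr]
  simp
  ring

theorem int_poly (x y z : ℝ) :
    ∫ t in (0 : ℝ)..1, (x + y * t + z * t ^ 2) = x + y / 2 + z / 3 := by
  have h : ∀ t ∈ uIcc (0 : ℝ) 1, HasDerivAt (fun t : ℝ => x * t + y * (t ^ 2 / 2) +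
      z * (t ^ 3 / 3)) (x + y * t + z * t ^ 2) t := by
    intro t _
    have := (((hasDerivAt_id t).const_mul x).add
      (((hasDerivAt_id t).pow 2).div_const 2 |>.const_mul y)).add
      (((hasDerivAt_id t).pow 3).div_const 3 |>.const_mul z)
    refine this.congr_deriv ?_
    simp
  rw [intervalIntegral.integral_eq_sub_of_hasDerivAt h
    (Continuous.intervalIntegrable (by fun_prop) _ _)]
  ring

theorem Sq_eq :
    Sq = Complex.measurableEquivRealProd ⁻¹' (Ioo (0 : ℝ) 1 ×ˢ Ioo (0 : ℝ) 1) := by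
  ext w
  simp [Sq, Complex.measurableEquivRealProd_apply]

theorem int_Sq {h : ℂ → ℝ} (hc : Continuous h) :
    IntegrableOn h Sq ∧
    ∫ w in Sq, h w = ∫ s in (0 : ℝ)..1, ∫ t in (0 : ℝ)..1, h ⟨s, t⟩ := by
  have hc' : Continuous (fun p : ℝ × ℝ => h ⟨p.1, p.2⟩) :=
    hc.comp (Complex.equivRealProdCLM.symm.continuous)
  have hi : IntegrableOn (fun p : ℝ × ℝ => h ⟨p.1, p.2⟩) (Ioo (0 : ℝ) 1 ×ˢ Ioo (0 : ℝ) 1) :=
    (hc'.continuousOn.integrableOn_compact (isCompact_Icc.prod isCompact_Icc)).mono_set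
      (prod_mono Ioo_subset_Icc_self Ioo_subset_Icc_self)
  have hme := Complex.measurableEquivRealProd.measurableEmbedding
  have hmp := Complex.volume_preserving_equiv_real_prod
  have e1 : (fun w : ℂ => h w) =
      (fun p : ℝ × ℝ => h ⟨p.1, p.2⟩) ∘ Complex.measurableEquivRealProd := by
    funext w
    simp [Complex.measurableEquivRealProd_apply]
  constructor
  · rw [Sq_eq]
    have := (hmp.integrableOn_comp_preimage hme (f := fun p : ℝ × ℝ => h ⟨p.1, p.2⟩)
      (s := Ioo (0 : ℝ) 1 ×ˢ Ioo (0 : ℝ) 1)).2 hi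
    rw [← e1] at this
    exact this
  · rw [Sq_eq]
    have := hmp.setIntegral_preimage_emb hme (fun p : ℝ × ℝ => h ⟨p.1, p.2⟩)
      (Ioo (0 : ℝ) 1 ×ˢ Ioo (0 : ℝ) 1)
    have e2 : ∀ w : ℂ, h ⟨(Complex.measurableEquivRealProd w).1,
        (Complex.measurableEquivRealProd w).2⟩ = h w := by
      intro w
      simp [Complex.measurableEquivRealProd_apply]
    simp only [e2] at this
    rw [this, Measure.volume_eq_prod, setIntegral_prod _ hi,
      intervalIntegral.integral_of_le zero_le_one, integral_Ioc_eq_integral_Ioo]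
    refine integral_congr_ae (Filter.Eventually.of_forall fun s => ?_)
    simp only
    rw [intervalIntegral.integral_of_le zero_le_one, integral_Ioc_eq_integral_Ioo]

end Cone

theorem cone_measurable {o a m b : ℂ} (h1 : 0 < cr (a - o) (m - o)) (h2 : 0 < cr (m - o) (b - o))
    (h3 : 0 < cr (a - o) (b - o)) : MeasurableSet (cone o a m b) := by
  rw [Cone.cone_eq]
  exact Cone.measurable_Sq.image_of_continuousOn_injOn
    (fun w _ => (Cone.hasFDerivAt_FF o a m b w).continuousAt.continuousWithinAt)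
    (Cone.FF_injOn h1 h2 h3)

theorem cone_volume {o a m b : ℂ} (h1 : 0 < cr (a - o) (m - o)) (h2 : 0 < cr (m - o) (b - o))
    (h3 : 0 < cr (a - o) (b - o)) : volume (cone o a m b) =
      ENNReal.ofReal (cr (a - o) (m - o) / 3 + cr (a - o) (b - o) / 6 +
        cr (m - o) (b - o) / 3) := by
  have hc : Continuous (fun w : ℂ => w.re * cr (bez a m b w.im - o) (dbez a m b w.im)) := by
    simp only [Cone.cr_dbez]
    fun_prop
  rw [Cone.cone_eq, ← lintegral_abs_det_fderiv_eq_addHaar_image volume Cone.measurable_Sq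
    (fun w _ => (Cone.hasFDerivAt_FF o a m b w).hasFDerivWithinAt) (Cone.FF_injOn h1 h2 h3)]
  have e1 : ∫⁻ w in Cone.Sq, ENNReal.ofReal |(Cone.FF' o a m b w).det| =
      ∫⁻ w in Cone.Sq, ENNReal.ofReal (w.re * cr (bez a m b w.im - o) (dbez a m b w.im)) := by
    refine setLIntegral_congr_fun Cone.measurable_Sq fun w hw => ?_
    rw [Cone.det_FF', abs_of_nonneg]
    exact mul_nonneg hw.1.1.le (Cone.cr_dbez_pos h1 h2 h3 hw.2).le
  rw [e1, ← ofReal_integral_eq_lintegral_ofReal (Cone.int_Sq hc).1, (Cone.int_Sq hc).2]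
  · congr 1
    simp only [Cone.cr_dbez]
    have e2 : ∀ s : ℝ, ∫ t in (0 : ℝ)..1, s * (2 * ((1 - t) ^ 2 * cr (a - o) (m - o) +
        t * (1 - t) * cr (a - o) (b - o) + t ^ 2 * cr (m - o) (b - o))) =
        s * (2 * (cr (a - o) (m - o) / 3 + cr (a - o) (b - o) / 6 +
        cr (m - o) (b - o) / 3)) := by
      intro s
      have e3 : ∀ t : ℝ, s * (2 * ((1 - t) ^ 2 * cr (a - o) (m - o) +
          t * (1 - t) * cr (a - o) (b - o) + t ^ 2 * cr (m - o) (b - o))) =
          2 * s * cr (a - o) (m - o) + (2 * s * (cr (a - o) (b - o) -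
          2 * cr (a - o) (m - o))) * t + (2 * s * (cr (a - o) (m - o) - cr (a - o) (b - o) +
          cr (m - o) (b - o))) * t ^ 2 := fun t => by ring
      simp only [e3]
      rw [Cone.int_poly]
      ring
    simp only [e2]
    have e4 := Cone.int_poly 0 (2 * (cr (a - o) (m - o) / 3 + cr (a - o) (b - o) / 6 +
        cr (m - o) (b - o) / 3)) 0
    simp only [zero_add, zero_mul, add_zero] at e4
    simp only [mul_comm _ (2 * (cr (a - o) (m - o) / 3 + cr (a - o) (b - o) / 6 +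
        cr (m - o) (b - o) / 3))]
    rw [e4]
    ring
  · refine (ae_restrict_iff' Cone.measurable_Sq).2 (Filter.Eventually.of_forall fun w hw => ?_)
    exact mul_nonneg hw.1.1.le (Cone.cr_dbez_pos h1 h2 h3 hw.2).le

theorem cone_wedge {o a m b z : ℂ} (h1 : 0 < cr (a - o) (m - o)) (h2 : 0 < cr (m - o) (b - o))
    (h3 : 0 < cr (a - o) (b - o)) (hz : z ∈ cone o a m b) :
    0 < cr (a - o) (z - o) ∧ 0 < cr (z - o) (b - o) := by
  obtain ⟨s, hs, t, ht, rfl⟩ := hz
  have e1 : 0 < s := hs.1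
  have e2 : 0 < t := ht.1
  have e3 : 0 < 1 - t := by linarith [ht.2]
  have k1 : cr (a - o) (o + (s : ℝ) • (bez a m b t - o) - o) =
      s * (2 * t * (1 - t) * cr (a - o) (m - o) + t ^ 2 * cr (a - o) (b - o)) := by
    simp only [cr, Complex.sub_re, Complex.sub_im, Complex.add_re, Complex.add_im,
      Complex.smul_re, Complex.smul_im, smul_eq_mul, Cone.bez_re, Cone.bez_im]
    ring
  have k2 : cr (o + (s : ℝ) • (bez a m b t - o) - o) (b - o) =
      s * (2 * t * (1 - t) * cr (m - o) (b - o) + (1 - t) ^ 2 * cr (a - o) (b - o)) := by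
    simp only [cr, Complex.sub_re, Complex.sub_im, Complex.add_re, Complex.add_im,
      Complex.smul_re, Complex.smul_im, smul_eq_mul, Cone.bez_re, Cone.bez_im]
    ring
  rw [k1, k2]
  constructor <;> positivity

theorem cone_lt (f : ℂ →ₗ[ℝ] ℝ) {o a m b z : ℂ} {c : ℝ} (ho : f o < c) (ha : f a ≤ c)
    (hm : f m ≤ c) (hb : f b ≤ c) (hz : z ∈ cone o a m b) : f z < c := by
  obtain ⟨s, hs, t, ht, rfl⟩ := hz
  have e1 : 0 < s := hs.1
  have e1' : 0 < 1 - s := by linarith [hs.2]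
  have e2 : 0 < t := ht.1
  have e3 : 0 < 1 - t := by linarith [ht.2]
  have k : f (o + (s : ℝ) • (bez a m b t - o)) =
      (1 - s) * f o + s * ((1 - t) ^ 2 * f a + 2 * t * (1 - t) * f m + t ^ 2 * f b) := by
    simp only [bez, map_add, map_smul, map_sub, smul_eq_mul]
    ring
  rw [k]
  have k1 : (1 - t) ^ 2 * f a ≤ (1 - t) ^ 2 * c := mul_le_mul_of_nonneg_left ha (by positivity)
  have k2 : 2 * t * (1 - t) * f m ≤ 2 * t * (1 - t) * c :=
    mul_le_mul_of_nonneg_left hm (by positivity)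
  have k3 : t ^ 2 * f b ≤ t ^ 2 * c := mul_le_mul_of_nonneg_left hb (by positivity)
  have k4 : (1 - t) ^ 2 * f a + 2 * t * (1 - t) * f m + t ^ 2 * f b ≤ c := by
    calc (1 - t) ^ 2 * f a + 2 * t * (1 - t) * f m + t ^ 2 * f b
        ≤ (1 - t) ^ 2 * c + 2 * t * (1 - t) * c + t ^ 2 * c := by linarith
      _ = c := by ring
  have k5 := mul_le_mul_of_nonneg_left k4 e1.le
  have k6 := mul_lt_mul_of_pos_left ho e1'
  linarith

end Pool.Agent.Helper79.HC
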