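import Mathlib
import Pool.Agent.Helper79.HC.Defs
import Pool.Agent.Helper68.HC.Cone

/-!
HC-2: the divergence theorem for cones over quadratic Bezier curves.
-/

namespace Pool.Agent.Helper79.HC

open MeasureTheory Set

namespace ConeDiv

/-- the linear algebra identity behind the change of variables -/
theorem cr_div (D : ℂ →L[ℝ] ℂ) (x y : ℂ) :
    cr (D x) y + cr x (D y) = ((D 1).re + (D Complex.I).im) * cr x y := by
  have hx : D x = x.re • D 1 + x.im • D Complex.I := by
    rw [← map_smul, ← map_smul, ← map_add]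
    congr 1
    apply Complex.ext <;> simp
  have hy : D y = y.re • D 1 + y.im • D Complex.I := by
    rw [← map_smul, ← map_smul, ← map_add]
    congr 1
    apply Complex.ext <;> simp
  rw [hx, hy]
  simp only [cr, Complex.add_re, Complex.add_im, Complex.smul_re, Complex.smul_im, smul_eq_mul]
  ring

/-- the parametrisation -/
noncomputable def G (o a m b : ℂ) (p : ℝ × ℝ) : ℂ := o + (p.1 : ℝ) • (bez a m b p.2 - o)

theorem contDiff_bez (a m b : ℂ) : ContDiff ℝ 1 (bez a m b) := by
  unfold bez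
  fun_prop

theorem contDiff_dbez (a m b : ℂ) : ContDiff ℝ 1 (dbez a m b) := by
  unfold dbez
  fun_prop

theorem contDiff_G (o a m b : ℂ) : ContDiff ℝ 1 (G o a m b) := by
  unfold G bez
  fun_prop

theorem contDiff_cr {E : Type*} [NormedAddCommGroup E] [NormedSpace ℝ E] {f g : E → ℂ}
    (hf : ContDiff ℝ 1 f) (hg : ContDiff ℝ 1 g) : ContDiff ℝ 1 (fun x => cr (f x) (g x)) := by
  unfold cr
  have h1 : ContDiff ℝ 1 (fun x => (f x).re) := Complex.reCLM.contDiff.comp hf
  have h2 : ContDiff ℝ 1 (fun x => (f x).im) := Complex.imCLM.contDiff.comp hf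
  have h3 : ContDiff ℝ 1 (fun x => (g x).re) := Complex.reCLM.contDiff.comp hg
  have h4 : ContDiff ℝ 1 (fun x => (g x).im) := Complex.imCLM.contDiff.comp hg
  exact (h1.mul h4).sub (h2.mul h3)

theorem hasDerivAt_cr {f g : ℝ → ℂ} {f' g' : ℂ} {x : ℝ} (hf : HasDerivAt f f' x)
    (hg : HasDerivAt g g' x) :
    HasDerivAt (fun x => cr (f x) (g x)) (cr f' (g x) + cr (f x) g') x := by
  have h1 : HasDerivAt (fun x => (f x).re) f'.re x := Complex.reCLM.hasFDerivAt.comp_hasDerivAt x hf
  have h2 : HasDerivAt (fun x => (f x).im) f'.im x := Complex.imCLM.hasFDerivAt.comp_hasDerivAt x hf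
  have h3 : HasDerivAt (fun x => (g x).re) g'.re x := Complex.reCLM.hasFDerivAt.comp_hasDerivAt x hg
  have h4 : HasDerivAt (fun x => (g x).im) g'.im x := Complex.imCLM.hasFDerivAt.comp_hasDerivAt x hg
  refine ((h1.mul h4).sub (h2.mul h3)).congr_deriv ?_
  simp only [cr]
  ring

variable {φ : ℂ → ℂ}

/-- first flux -/
noncomputable def P (φ : ℂ → ℂ) (o a m b : ℂ) (p : ℝ × ℝ) : ℝ :=
  p.1 * cr (φ (G o a m b p)) (dbez a m b p.2)

/-- second flux -/
noncomputable def Q (φ : ℂ → ℂ) (o a m b : ℂ) (p : ℝ × ℝ) : ℝ :=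
  cr (bez a m b p.2 - o) (φ (G o a m b p))

theorem contDiff_P (hφ : ContDiff ℝ 1 φ) (o a m b : ℂ) : ContDiff ℝ 1 (P φ o a m b) := by
  unfold P
  exact contDiff_fst.mul (contDiff_cr (hφ.comp (contDiff_G o a m b))
    ((contDiff_dbez a m b).comp contDiff_snd))

theorem contDiff_Q (hφ : ContDiff ℝ 1 φ) (o a m b : ℂ) : ContDiff ℝ 1 (Q φ o a m b) := by
  unfold Q
  exact contDiff_cr (((contDiff_bez a m b).comp contDiff_snd).sub contDiff_const)
    (hφ.comp (contDiff_G o a m b))

theorem hasDerivAt_P (hφ : ContDiff ℝ 1 φ) (o a m b : ℂ) (s t : ℝ) :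
    HasDerivAt (fun s => P φ o a m b (s, t))
      (cr (φ (G o a m b (s, t))) (dbez a m b t) +
        s * cr (fderiv ℝ φ (G o a m b (s, t)) (bez a m b t - o)) (dbez a m b t)) s := by
  have h1 : HasDerivAt (fun s : ℝ => G o a m b (s, t)) (bez a m b t - o) s := by
    have := ((hasDerivAt_id s).smul_const (bez a m b t - o)).const_add o
    exact this.congr_deriv (by simp)
  have h2 : HasDerivAt (fun s : ℝ => φ (G o a m b (s, t)))
      (fderiv ℝ φ (G o a m b (s, t)) (bez a m b t - o)) s :=
    ((hφ.differentiable one_ne_zero).differentiableAt.hasFDerivAt).comp_hasDerivAt s h1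
  have h3 := hasDerivAt_cr h2 (hasDerivAt_const s (dbez a m b t))
  have h4 := (hasDerivAt_id s).mul h3
  refine h4.congr_deriv ?_
  simp [cr]

theorem hasDerivAt_Q (hφ : ContDiff ℝ 1 φ) (o a m b : ℂ) (s t : ℝ) :
    HasDerivAt (fun t => Q φ o a m b (s, t))
      (cr (dbez a m b t) (φ (G o a m b (s, t))) +
        s * cr (bez a m b t - o) (fderiv ℝ φ (G o a m b (s, t)) (dbez a m b t))) t := by
  have h0 := (Cone.hasDerivAt_bez a m b t).sub_const o
  have h1 : HasDerivAt (fun t : ℝ => G o a m b (s, t)) (s • dbez a m b t) t :=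
    (h0.const_smul s).const_add o
  have h2 : HasDerivAt (fun t : ℝ => φ (G o a m b (s, t)))
      (fderiv ℝ φ (G o a m b (s, t)) (s • dbez a m b t)) t :=
    ((hφ.differentiable one_ne_zero).differentiableAt.hasFDerivAt).comp_hasDerivAt t h1
  have h3 := hasDerivAt_cr h0 h2
  refine h3.congr_deriv ?_
  rw [map_smul]
  simp only [cr, Complex.smul_re, Complex.smul_im, smul_eq_mul]
  ring

theorem fderiv_sum (hφ : ContDiff ℝ 1 φ) (o a m b : ℂ) (s t : ℝ) :
    fderiv ℝ (P φ o a m b) (s, t) (1, 0) + fderiv ℝ (Q φ o a m b) (s, t) (0, 1) =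
      s * cr (bez a m b t - o) (dbez a m b t) * dvg φ (G o a m b (s, t)) := by
  have hP : HasFDerivAt (P φ o a m b) (fderiv ℝ (P φ o a m b) (s, t)) (s, t) :=
    ((contDiff_P hφ o a m b).differentiable one_ne_zero).differentiableAt.hasFDerivAt
  have hQ : HasFDerivAt (Q φ o a m b) (fderiv ℝ (Q φ o a m b) (s, t)) (s, t) :=
    ((contDiff_Q hφ o a m b).differentiable one_ne_zero).differentiableAt.hasFDerivAt
  have e1 : HasDerivAt (fun s : ℝ => ((s, t) : ℝ × ℝ)) (1, 0) s :=
    (hasDerivAt_id s).prodMk (hasDerivAt_const s t)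
  have e2 : HasDerivAt (fun t : ℝ => ((s, t) : ℝ × ℝ)) (0, 1) t :=
    (hasDerivAt_const t s).prodMk (hasDerivAt_id t)
  have l1 : HasDerivAt (fun s => P φ o a m b (s, t)) (fderiv ℝ (P φ o a m b) (s, t) (1, 0)) s :=
    HasFDerivAt.comp_hasDerivAt (l := P φ o a m b) (f := fun s : ℝ => ((s, t) : ℝ × ℝ)) s hP e1
  have l2 : HasDerivAt (fun t => Q φ o a m b (s, t)) (fderiv ℝ (Q φ o a m b) (s, t) (0, 1)) t :=
    HasFDerivAt.comp_hasDerivAt (l := Q φ o a m b) (f := fun t : ℝ => ((s, t) : ℝ × ℝ)) t hQ e2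
  have k1 := l1.unique (hasDerivAt_P hφ o a m b s t)
  have k2 := l2.unique (hasDerivAt_Q hφ o a m b s t)
  rw [k1, k2]
  have k3 := cr_div (fderiv ℝ φ (G o a m b (s, t))) (bez a m b t - o) (dbez a m b t)
  have k4 : cr (dbez a m b t) (φ (G o a m b (s, t))) =
      - cr (φ (G o a m b (s, t))) (dbez a m b t) := by
    simp only [cr]
    ring
  rw [k4]
  unfold dvg
  linear_combination s * k3

theorem bez_mid (a b : ℂ) (t : ℝ) : bez a (mid a b) b t = a + (t : ℝ) • (b - a) := by
  apply Complex.ext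
  · simp only [Cone.bez_re, mid, Complex.add_re, Complex.smul_re, smul_eq_mul, Complex.sub_re,
      Complex.div_ofNat_re]
    ring
  · simp only [Cone.bez_im, mid, Complex.add_im, Complex.smul_im, smul_eq_mul, Complex.sub_im,
      Complex.div_ofNat_im]
    ring

theorem dbez_mid (a b : ℂ) (t : ℝ) : dbez a (mid a b) b t = b - a := by
  apply Complex.ext
  · simp only [Cone.dbez_re, mid, Complex.add_re, Complex.sub_re, Complex.div_ofNat_re]
    ring
  · simp only [Cone.dbez_im, mid, Complex.add_im, Complex.sub_im, Complex.div_ofNat_im]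
    ring

theorem bez_zero (a m b : ℂ) : bez a m b 0 = a := by
  simp [bez]

theorem bez_one (a m b : ℂ) : bez a m b 1 = b := by
  simp [bez]

theorem int_div (hφ : ContDiff ℝ 1 φ) (o a m b : ℂ) :
    ∫ s in (0 : ℝ)..1, ∫ t in (0 : ℝ)..1,
      s * cr (bez a m b t - o) (dbez a m b t) * dvg φ (G o a m b (s, t)) =
      fl φ a m b + fl φ b (mid b o) o + fl φ o (mid o a) a := by
  have hP := contDiff_P hφ o a m b
  have hQ := contDiff_Q hφ o a m b
  have hc : Continuous (fun x : ℝ × ℝ => fderiv ℝ (P φ o a m b) x (1, 0) +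
      fderiv ℝ (Q φ o a m b) x (0, 1)) :=
    ((hP.continuous_fderiv one_ne_zero).clm_apply continuous_const).add
      ((hQ.continuous_fderiv one_ne_zero).clm_apply continuous_const)
  have key := integral2_divergence_prod_of_hasFDerivAt_off_countable (P φ o a m b) (Q φ o a m b)
    (fderiv ℝ (P φ o a m b)) (fderiv ℝ (Q φ o a m b)) 0 0 1 1 ∅ countable_empty
    hP.continuous.continuousOn hQ.continuous.continuousOn
    (fun x _ => (hP.differentiable one_ne_zero).differentiableAt.hasFDerivAt)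
    (fun x _ => (hQ.differentiable one_ne_zero).differentiableAt.hasFDerivAt)
    (hc.continuousOn.integrableOn_compact (isCompact_uIcc.prod isCompact_uIcc))
  simp only [fderiv_sum hφ] at key
  rw [key]
  have e1 : ∫ y in (0 : ℝ)..1, P φ o a m b (1, y) = fl φ a m b := by
    unfold fl
    refine intervalIntegral.integral_congr fun y _ => ?_
    simp [P, G]
  have e2 : ∫ y in (0 : ℝ)..1, P φ o a m b (0, y) = 0 := by
    simp [P]
  have e3 : ∫ x in (0 : ℝ)..1, Q φ o a m b (x, 1) = fl φ b (mid b o) o := by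
    unfold fl
    have := intervalIntegral.integral_comp_sub_left (a := 0) (b := 1)
      (fun x => Q φ o a m b (x, 1)) 1
    simp only [sub_self, sub_zero] at this
    rw [← this]
    refine intervalIntegral.integral_congr fun y _ => ?_
    simp only [Q, G, bez_one, bez_mid, dbez_mid]
    have e : o + (1 - y : ℝ) • (b - o) = b + (y : ℝ) • (o - b) := by module
    rw [e]
    simp only [cr, Complex.sub_re, Complex.sub_im]
    ring
  have e4 : ∫ x in (0 : ℝ)..1, Q φ o a m b (x, 0) = - fl φ o (mid o a) a := by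
    unfold fl
    rw [← intervalIntegral.integral_neg]
    refine intervalIntegral.integral_congr fun y _ => ?_
    simp only [Q, G, bez_zero, bez_mid, dbez_mid]
    simp only [cr, Complex.sub_re, Complex.sub_im]
    ring
  rw [e1, e2, e3, e4]
  ring

theorem dvg_continuous' (hφ : ContDiff ℝ 1 φ) : Continuous (dvg φ) := by
  unfold dvg
  have h1 := (hφ.continuous_fderiv one_ne_zero).clm_apply (continuous_const (y := (1 : ℂ)))
  have h2 := (hφ.continuous_fderiv one_ne_zero).clm_apply (continuous_const (y := Complex.I))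
  exact (Complex.continuous_re.comp h1).add (Complex.continuous_im.comp h2)

end ConeDiv

theorem cone_div {φ : ℂ → ℂ} (hφ : ContDiff ℝ 1 φ) {o a m b : ℂ} (h1 : 0 < cr (a - o) (m - o))
    (h2 : 0 < cr (m - o) (b - o)) (h3 : 0 < cr (a - o) (b - o)) :
    IntegrableOn (dvg φ) (cone o a m b) ∧
    ∫ z in cone o a m b, dvg φ z =
      fl φ a m b + fl φ b (mid b o) o + fl φ o (mid o a) a := by
  have hd : Continuous (fun w : ℂ => w.re * cr (bez a m b w.im - o) (dbez a m b w.im)) := by
    simp only [Cone.cr_dbez]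
    fun_prop
  have hF : Continuous (Cone.FF o a m b) := by
    unfold Cone.FF
    exact continuous_const.add (Complex.continuous_re.smul
      ((((ConeDiv.contDiff_bez a m b).continuous).comp Complex.continuous_im).sub
        continuous_const))
  have hc : Continuous (fun w : ℂ => w.re * cr (bez a m b w.im - o) (dbez a m b w.im) *
      dvg φ (Cone.FF o a m b w)) := hd.mul ((ConeDiv.dvg_continuous' hφ).comp hF)
  have e : ∀ w ∈ Cone.Sq, |(Cone.FF' o a m b w).det| • dvg φ (Cone.FF o a m b w) =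
      w.re * cr (bez a m b w.im - o) (dbez a m b w.im) * dvg φ (Cone.FF o a m b w) := by
    intro w hw
    rw [Cone.det_FF', abs_of_nonneg, smul_eq_mul]
    exact mul_nonneg hw.1.1.le (Cone.cr_dbez_pos h1 h2 h3 hw.2).le
  rw [Cone.cone_eq]
  constructor
  · rw [integrableOn_image_iff_integrableOn_abs_det_fderiv_smul volume Cone.measurable_Sq
      (fun w _ => (Cone.hasFDerivAt_FF o a m b w).hasFDerivWithinAt) (Cone.FF_injOn h1 h2 h3)]
    exact (Cone.int_Sq hc).1.congr_fun (fun w hw => (e w hw).symm) Cone.measurable_Sq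
  · rw [integral_image_eq_integral_abs_det_fderiv_smul volume Cone.measurable_Sq
      (fun w _ => (Cone.hasFDerivAt_FF o a m b w).hasFDerivWithinAt) (Cone.FF_injOn h1 h2 h3),
      setIntegral_congr_fun Cone.measurable_Sq e, (Cone.int_Sq hc).2]
    exact ConeDiv.int_div hφ o a m b

end Pool.Agent.Helper79.HC
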